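import Pool.Agent.H456.Pub.Def

/-!
# Quadratic twists, and the law of Poonen and Rains for the prime `2`
-/

set_option autoImplicit false

open Polynomial

namespace Pool.Agent.H456.Pub

section

variable {K : Type} [Field K]

/-- the quadratic twist of `E` by `D`: if `y² = x³ + a x² + b x + c` is the equation of `E` obtained by completing the
square (`a = b₂ / 4`, `b = b₄ / 2`, `c = b₆ / 4`), it is the curve `y² = x³ + D a x² + D² b x + D³ c` -/
noncomputable def twist (E : WeierstrassCurve K) (D : K) : WeierstrassCurve K :=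
  ⟨0, D * (E.b₂ / 4), 0, D ^ 2 * (E.b₄ / 2), D ^ 3 * (E.b₆ / 4)⟩

open Classical in
/-- the rank of `E(K)` -/
noncomputable def rank (E : WeierstrassCurve K) : ℕ := Module.finrank ℤ E.toAffine.Point

end

section

variable {F : Type} [Field F]

/-- the quadratic twist of `E` by the polynomial `D` -/
noncomputable abbrev twistP (E : WeierstrassCurve (RatFunc F)) (D : F[X]) : WeierstrassCurve (RatFunc F) :=
  twist E (algebraMap F[X] (RatFunc F) D)

/-- the 2-Selmer group of `E` -/
abbrev SelTwo (E : WeierstrassCurve (RatFunc F)) : Type := Quot (SameClass E (Tors E 2))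

/-- the `2^∞`-Selmer group of `E` -/
abbrev SelInf (E : WeierstrassCurve (RatFunc F)) : Type := Quot (SameClass E (Prim E 2))

/-- the elements killed by two of the `2^∞`-Selmer group of `E` -/
abbrev SelInfTwo (E : WeierstrassCurve (RatFunc F)) : Type := {x : SelInf E // Killed E (Prim E 2) 2 x}

end

/-- the law of Poonen and Rains for the prime `2`: `∏_{j ≥ 0} (1 + 2 ^ (-j))⁻¹ * ∏_{1 ≤ i ≤ k} 2 / (2 ^ i - 1)` -/
noncomputable def law (k : ℕ) : ℝ :=
  (∏' j : ℕ, (1 + (1 / 2 : ℝ) ^ j))⁻¹ * ∏ i ∈ Finset.range k, (2 : ℝ) / (2 ^ (i + 1) - 1)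

open Classical in
/-- the proportion of the elements of the finite set `𝒟` with the property `p` -/
noncomputable def prop {A : Type} (𝒟 : Finset A) (p : A → Prop) : ℝ := ((𝒟.filter p).card : ℝ) / (𝒟.card : ℝ)

end Pool.Agent.H456.Pub
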