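import Pool.Agent.H456.Pub.Bridge

/-!
# The final forms of the theorems on the averages over congruence families, with the definitions of `Pub.Def`
-/

set_option autoImplicit false
set_option linter.all false

open Polynomial WeierstrassCurve IsDedekindDomain Finset Filter
open Pool.Agent.H456.BQ Pool.Agent.H456.RN
open Pool.Agent.H456.EC
open Pool.Agent.H456.Coh (s2 sI)
open scoped Topology

namespace Pool.Agent.H456.Pub

variable {F : Type} [Field F]

theorem s2_card (κ : KC F) : s2 κ = Nat.card (Quot (SameClass κ.out (Tors κ.out 2))) := (card_tors κ.out 2).1.symm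

theorem sI_card (κ : KC F) : sI κ = Nat.card {x : Quot (SameClass κ.out (Prim κ.out 2)) // Killed κ.out (Prim κ.out 2) 2 x} :=
  (card_prim κ.out 2 2).1.symm

end Pool.Agent.H456.Pub
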