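import Pool.Agent.H456.Pub.Law2

/-!
# The 2-primary part of the Tate-Shafarevich group
-/

set_option autoImplicit false

open Polynomial WeierstrassCurve IsDedekindDomain

namespace Pool.Agent.H456.Pub

open Classical in
/-- the 2-primary part of the Tate-Shafarevich group of `E` over `K = F(t)` is trivial: if a continuous cocycle with
values in `E(Kˢ)` is trivial in `H¹(Kᵥ, E)` for all places `v` of `K`, and its class in `H¹(K, E)` is killed by `2ⁿ`, then
its class in `H¹(K, E)` is trivial -/
structure ShaTwoTrivial {F : Type} [Field F] (E : WeierstrassCurve (RatFunc F)) : Prop where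
  zero : ∀ c : Gal (RatFunc F) → Pt E (SeparableClosure (RatFunc F)), IsCocycle E c →
    (∀ v : HeightOneSpectrum F[X], LocTriv E (v.adicCompletion (RatFunc F)) c) →
    LocTriv E (RatFunc.CompletionAtInfty F) c →
    ∀ n : ℕ, IsCobound E (fun _ => True) (2 ^ n • c) → IsCobound E (fun _ => True) c

end Pool.Agent.H456.Pub
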