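import Pool.Agent.H456.Pub.Law

/-!
# The squarefree polynomials of degree `n`
-/

set_option autoImplicit false

open Polynomial

namespace Pool.Agent.H456.Pub

/-- the squarefree polynomials of degree `n` -/
def sqf (F : Type) [Field F] (n : ℕ) : Set F[X] := {D | Squarefree D ∧ D.natDegree = n}

/-- the proportion of the elements of the (finite) set `S` with the property `p` -/
noncomputable def share {A : Type} (S : Set A) (p : A → Prop) : ℝ := ({x | x ∈ S ∧ p x}.ncard : ℝ) / (S.ncard : ℝ)

end Pool.Agent.H456.Pub
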