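import Pool.Agent.H456.Pub.Law2
import Pool.Agent.H456.RN.Defs

/-!
# Starred fibres
-/

set_option autoImplicit false

open Polynomial Pool.Agent.H456.EC

namespace Pool.Agent.H456.Pub

variable {F : Type} [Field F]

/-- some translate (`x` replaced by `x + r`) of the cubic `x³ + a x² + b x + c` has coefficients divisible by `P`, `P²`
and `P³` -/
structure DivBy (P a b c : F[X]) : Prop where
  ex : ∃ r : F[X], P ∣ a + 3 * r ∧ P ^ 2 ∣ b + 2 * a * r + 3 * r ^ 2 ∧ P ^ 3 ∣ c + b * r + a * r ^ 2 + r ^ 3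

/-- the fibre at `P` is starred: the class contains a curve `y² = x³ + a x² + b x + c` over `F[t]` which is minimal at `P`
(no translate has `P² ∣ a`, `P⁴ ∣ b`, `P⁶ ∣ c`) and of which some translate has `P ∣ a`, `P² ∣ b`, `P³ ∣ c` -/
structure Starred (P : F[X])
    (κ : MulAction.orbitRel.Quotient (WeierstrassCurve.VariableChange (RatFunc F)) (WeierstrassCurve (RatFunc F))) :
    Prop where
  ex : ∃ a b c : F[X], (⟨0, a, 0, b, c⟩ : WeierstrassCurve F[X]).Δ ≠ 0 ∧ cls ⟨0, a, 0, b, c⟩ = κ ∧ DivBy P a b c ∧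
    ¬ DivBy (P ^ 2) a b c

/-- the elliptic curves of height at most `q ^ d` whose starred fibres at the finite places have total degree `m` -/
def starFam (F : Type) [Field F] (m d : ℕ) :
    Set (MulAction.orbitRel.Quotient (WeierstrassCurve.VariableChange (RatFunc F)) (WeierstrassCurve (RatFunc F))) :=
  {κ | κ ∈ cls '' Eqn F d ∧
    ∃ S : Finset F[X], (∀ P, P ∈ S ↔ P.Monic ∧ Irreducible P ∧ Starred P κ) ∧ ∑ P ∈ S, P.natDegree = m}

end Pool.Agent.H456.Pub
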