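import Pool.Agent.H456.Pub.Law2

/-!
# Averages
-/

set_option autoImplicit false

namespace Pool.Agent.H456.Pub

/-- the average of the values of `g` on the (finite) set `S` -/
noncomputable def mean {A : Type} (S : Set A) (g : A → ℕ) : ℝ := (∑ᶠ x ∈ S, (g x : ℝ)) / (S.ncard : ℝ)

theorem mean_coe {A : Type} (𝒟 : Finset A) (g : A → ℕ) : mean (𝒟 : Set A) g = (∑ x ∈ 𝒟, (g x : ℝ)) / (𝒟.card : ℝ) := by
  unfold mean
  rw [Set.ncard_coe_finset]
  congr 1
  rw [← finsum_mem_coe_finset]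

end Pool.Agent.H456.Pub
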