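import Pool.Agent.H456.Pub.Star

/-!
# Unions of the families of curves with starred fibres
-/

set_option autoImplicit false

open Polynomial Pool.Agent.H456.EC

namespace Pool.Agent.H456.Pub

/-- the elliptic curves of height at most `q ^ d` whose starred fibres at the finite places have total degree `2 k` for
some `k` in `A` -/
def starUnion (F : Type) [Field F] (A : Set ℕ) (d : ℕ) :
    Set (MulAction.orbitRel.Quotient (WeierstrassCurve.VariableChange (RatFunc F)) (WeierstrassCurve (RatFunc F))) :=
  {κ | ∃ k ∈ A, κ ∈ starFam F (2 * k) d}

end Pool.Agent.H456.Pub
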