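import Pool.Agent.H456.Pub.Def
import Pool.Agent.H456.Coh.Out

/-!
# Comparison of the two descriptions of the Selmer groups
-/

set_option autoImplicit false
set_option linter.all false

open Polynomial WeierstrassCurve IsDedekindDomain
open Pool.Agent.H456.Coh (SelmerGroup torsionPts primaryPts selCocycles coboundaries)

namespace Pool.Agent.H456.Pub

variable {F : Type} [Field F]

open Classical in
/-- the group element attached to a cocycle -/
noncomputable def toCoc (E : WeierstrassCurve (RatFunc F)) (A : Pt E (SeparableClosure (RatFunc F)) → Prop)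
    (A' : AddSubgroup (Pt E (SeparableClosure (RatFunc F)))) (hA : ∀ T, A T ↔ T ∈ A') (s : SelCocycle E A) :
    selCocycles E A' :=
  ⟨s.c, fun σ => (hA _).1 (s.values σ), s.cocycle.mul, s.cocycle.cont, fun v => (s.finite v).triv, s.infty.triv⟩

open Classical in
theorem cob_iff (E : WeierstrassCurve (RatFunc F)) (A : Pt E (SeparableClosure (RatFunc F)) → Prop)
    (A' : AddSubgroup (Pt E (SeparableClosure (RatFunc F)))) (hA : ∀ T, A T ↔ T ∈ A')
    (c : Gal (RatFunc F) → Pt E (SeparableClosure (RatFunc F))) : IsCobound E A c ↔ c ∈ coboundaries E A' := by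
  constructor
  · rintro ⟨T, hT, h⟩
    exact ⟨T, (hA T).1 hT, h⟩
  · rintro ⟨T, hT, h⟩
    exact ⟨T, (hA T).2 hT, h⟩

open Classical in
theorem mk_eq_iff (E : WeierstrassCurve (RatFunc F)) (A : Pt E (SeparableClosure (RatFunc F)) → Prop)
    (A' : AddSubgroup (Pt E (SeparableClosure (RatFunc F)))) (hA : ∀ T, A T ↔ T ∈ A') (x y : SelCocycle E A) :
    SameClass E A x y ↔ (QuotientAddGroup.mk (toCoc E A A' hA x) : SelmerGroup E A') =
      QuotientAddGroup.mk (toCoc E A A' hA y) := by
  have h1 : (QuotientAddGroup.mk (toCoc E A A' hA x) : SelmerGroup E A') =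
      QuotientAddGroup.mk (toCoc E A A' hA y) ↔
      (-(toCoc E A A' hA x) + toCoc E A A' hA y) ∈ (coboundaries E A').addSubgroupOf (selCocycles E A') :=
    QuotientAddGroup.eq
  rw [h1, AddSubgroup.mem_addSubgroupOf]
  have h3 : ((-(toCoc E A A' hA x) + toCoc E A A' hA y : selCocycles E A') :
      Gal (RatFunc F) → Pt E (SeparableClosure (RatFunc F))) = y.c - x.c := by
    change -x.c + y.c = y.c - x.c
    rw [neg_add_eq_sub]
  rw [h3, ← cob_iff E A A' hA]
  exact ⟨fun h => h.cob, fun h => ⟨h⟩⟩

open Classical in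
/-- the map from the classes to the group -/
noncomputable def toSel (E : WeierstrassCurve (RatFunc F)) (A : Pt E (SeparableClosure (RatFunc F)) → Prop)
    (A' : AddSubgroup (Pt E (SeparableClosure (RatFunc F)))) (hA : ∀ T, A T ↔ T ∈ A') :
    Quot (SameClass E A) → SelmerGroup E A' :=
  Quot.lift (fun s => (QuotientAddGroup.mk (toCoc E A A' hA s) : SelmerGroup E A'))
    (fun x y h => (mk_eq_iff E A A' hA x y).1 h)

open Classical in
theorem toSel_bij (E : WeierstrassCurve (RatFunc F)) (A : Pt E (SeparableClosure (RatFunc F)) → Prop)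
    (A' : AddSubgroup (Pt E (SeparableClosure (RatFunc F)))) (hA : ∀ T, A T ↔ T ∈ A') :
    Function.Bijective (toSel E A A' hA) := by
  constructor
  · intro x y
    induction x using Quot.inductionOn with
    | _ x =>
    induction y using Quot.inductionOn with
    | _ y =>
    intro h
    exact Quot.sound ((mk_eq_iff E A A' hA x y).2 h)
  · intro z
    obtain ⟨c, rfl⟩ := QuotientAddGroup.mk_surjective z
    obtain ⟨c, h1, h2, h3, h4, h5⟩ := c
    exact ⟨Quot.mk _ ⟨c, ⟨h2, h3⟩, fun σ => (hA _).2 (h1 σ), fun v => ⟨h4 v⟩, ⟨h5⟩⟩, rfl⟩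

open Classical in
theorem killed_iff (E : WeierstrassCurve (RatFunc F)) (A : Pt E (SeparableClosure (RatFunc F)) → Prop)
    (A' : AddSubgroup (Pt E (SeparableClosure (RatFunc F)))) (hA : ∀ T, A T ↔ T ∈ A') (m : ℕ)
    (x : Quot (SameClass E A)) : Killed E A m x ↔ m • toSel E A A' hA x = 0 := by
  have key : ∀ s : SelCocycle E A, IsCobound E A (m • s.c) ↔ m • toSel E A A' hA (Quot.mk _ s) = 0 := by
    intro s
    have h1 : m • toSel E A A' hA (Quot.mk _ s) = (QuotientAddGroup.mk (m • toCoc E A A' hA s) : SelmerGroup E A') := rfl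
    rw [h1]
    have h3 : (QuotientAddGroup.mk (m • toCoc E A A' hA s) : SelmerGroup E A') = 0 ↔
      (m • toCoc E A A' hA s) ∈ (coboundaries E A').addSubgroupOf (selCocycles E A') :=
      QuotientAddGroup.eq_zero_iff _
    refine Iff.trans ?_ h3.symm
    rw [AddSubgroup.mem_addSubgroupOf]
    exact cob_iff E A A' hA (m • s.c)
  constructor
  · rintro ⟨s, rfl, h⟩
    exact (key s).1 h
  · intro h
    induction x using Quot.inductionOn with
    | _ s => exact ⟨⟨s, rfl, (key s).2 h⟩⟩

open Classical in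
theorem card_tors (E : WeierstrassCurve (RatFunc F)) (n : ℕ) :
    Nat.card (Quot (SameClass E (Tors E n))) = Nat.card (SelmerGroup E (torsionPts E n)) ∧
    (Finite (Quot (SameClass E (Tors E n))) ↔ Finite (SelmerGroup E (torsionPts E n))) := by
  have hA : ∀ T, Tors E n T ↔ T ∈ torsionPts E n := fun T => ⟨fun h => h.eq, fun h => ⟨h⟩⟩
  let e := Equiv.ofBijective _ (toSel_bij E (Tors E n) (torsionPts E n) hA)
  exact ⟨Nat.card_congr e, ⟨fun h => Finite.of_equiv _ e, fun h => Finite.of_equiv _ e.symm⟩⟩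

open Classical in
theorem card_prim (E : WeierstrassCurve (RatFunc F)) (p m : ℕ) :
    Nat.card {x : Quot (SameClass E (Prim E p)) // Killed E (Prim E p) m x} =
      Nat.card {x : SelmerGroup E (primaryPts E p) // m • x = 0} ∧
    (Finite {x : Quot (SameClass E (Prim E p)) // Killed E (Prim E p) m x} ↔
      Finite {x : SelmerGroup E (primaryPts E p) // m • x = 0}) := by
  have hA : ∀ T, Prim E p T ↔ T ∈ primaryPts E p := fun T => ⟨fun h => h.ex, fun h => ⟨h⟩⟩
  let e := Equiv.ofBijective _ (toSel_bij E (Prim E p) (primaryPts E p) hA)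
  let e' : {x : Quot (SameClass E (Prim E p)) // Killed E (Prim E p) m x} ≃
      {x : SelmerGroup E (primaryPts E p) // m • x = 0} :=
    e.subtypeEquiv (fun x => killed_iff E _ _ hA m x)
  exact ⟨Nat.card_congr e', ⟨fun h => Finite.of_equiv _ e', fun h => Finite.of_equiv _ e'.symm⟩⟩

end Pool.Agent.H456.Pub
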