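import Mathlib

/-!
# Selmer groups of elliptic curves over `F(t)`, by Galois cocycles

`E` is a Weierstrass curve over the field `K`, `SeparableClosure K` is a separable closure of `K`, `Gal K` is the absolute
Galois group of `K` with its Krull topology.
-/

set_option autoImplicit false

open Polynomial WeierstrassCurve IsDedekindDomain

namespace Pool.Agent.H456.Pub

section

variable {K : Type} [Field K]

/-- the absolute Galois group of `K` -/
abbrev Gal (K : Type) [Field K] : Type := SeparableClosure K ≃ₐ[K] SeparableClosure K

/-- the group `E(L)` for an extension `L` of `K` -/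
abbrev Pt (E : WeierstrassCurve K) (L : Type) [Field L] [Algebra K L] : Type := (E.toAffine.baseChange L).Point

open Classical in
/-- `c` is a continuous cocycle on the absolute Galois group of `K` with values in `E(Kˢ)` -/
structure IsCocycle (E : WeierstrassCurve K) (c : Gal K → Pt E (SeparableClosure K)) : Prop where
  mul : ∀ σ τ : Gal K, c (σ * τ) = c σ + Affine.Point.map σ.toAlgHom (c τ)
  cont : IsLocallyConstant c

open Classical in
/-- the class of the cocycle `c` has a trivial restriction to `H¹(Kᵥ, E)`: for every embedding `ι` of the separable
closures there is a point `Q` of `E` over the separable closure of `Kᵥ` such that `c` restricts to `σ ↦ σ Q - Q` -/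
structure LocTriv (E : WeierstrassCurve K) (Kv : Type) [Field Kv] [Algebra K Kv]
    (c : Gal K → Pt E (SeparableClosure K)) : Prop where
  triv : ∀ ι : SeparableClosure K →ₐ[K] SeparableClosure Kv, ∃ Q : Pt E (SeparableClosure Kv),
    ∀ (σ : Gal Kv) (τ : Gal K), (∀ x, ι (τ x) = σ (ι x)) →
      Affine.Point.map ι (c τ) = Affine.Point.map (σ.toAlgHom.restrictScalars K) Q - Q

open Classical in
/-- `c` is the coboundary `σ ↦ σ T - T` of a point `T` with the property `A` -/
structure IsCobound (E : WeierstrassCurve K) (A : Pt E (SeparableClosure K) → Prop)
    (c : Gal K → Pt E (SeparableClosure K)) : Prop where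
  ex : ∃ T, A T ∧ ∀ σ : Gal K, c σ = Affine.Point.map σ.toAlgHom T - T

open Classical in
/-- the point `T` is killed by `n` -/
structure Tors (E : WeierstrassCurve K) (n : ℕ) (T : Pt E (SeparableClosure K)) : Prop where
  eq : n • T = 0

open Classical in
/-- the point `T` is killed by a power of `p` -/
structure Prim (E : WeierstrassCurve K) (p : ℕ) (T : Pt E (SeparableClosure K)) : Prop where
  ex : ∃ k : ℕ, p ^ k • T = 0

end

section

variable {F : Type} [Field F]

open Classical in
/-- the continuous cocycles with values in the group of the points of `E` over the separable closure of `K = F(t)` with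
the property `A`, whose classes have trivial restrictions to `H¹(Kᵥ, E)` for all places `v` of `K` -/
structure SelCocycle (E : WeierstrassCurve (RatFunc F)) (A : Pt E (SeparableClosure (RatFunc F)) → Prop) where
  c : Gal (RatFunc F) → Pt E (SeparableClosure (RatFunc F))
  cocycle : IsCocycle E c
  values : ∀ σ, A (c σ)
  finite : ∀ v : HeightOneSpectrum F[X], LocTriv E (v.adicCompletion (RatFunc F)) c
  infty : LocTriv E (RatFunc.CompletionAtInfty F) c

open Classical in
/-- two cocycles have the same class: the difference is a coboundary. The Selmer group is the quotient -/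
structure SameClass (E : WeierstrassCurve (RatFunc F)) (A : Pt E (SeparableClosure (RatFunc F)) → Prop)
    (x y : SelCocycle E A) : Prop where
  cob : IsCobound E A (y.c - x.c)

open Classical in
/-- the class `x` is killed by `m` -/
structure Killed (E : WeierstrassCurve (RatFunc F)) (A : Pt E (SeparableClosure (RatFunc F)) → Prop) (m : ℕ)
    (x : Quot (SameClass E A)) : Prop where
  ex : ∃ s : SelCocycle E A, Quot.mk _ s = x ∧ IsCobound E A (m • s.c)

end

end Pool.Agent.H456.Pub
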